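import Pool.Agent.Helper79.LC.Res
import Mathlib

/-!
Dobrowolski's degree lemma: for all but `log_2 (deg g)` primes `p` the `p`-th powers of the roots of
the irreducible polynomial `g` are distinct, and they are the roots of an irreducible polynomial.
-/

open Finset

namespace Pool.Agent.Helper79.LC

section DegLemma

variable {g : Polynomial ℤ}

lemma mem_rt_iff (hm : g.Monic) {a : ℂ} : a ∈ rt g ↔ Polynomial.aeval a g = 0 := by
  rw [rt, Multiset.mem_toFinset, Polynomial.mem_roots (hm.map _).ne_zero, Polynomial.IsRoot.def,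
    Polynomial.eval_map, Polynomial.aeval_def]
  rfl

lemma aeval_mapQ (a : ℂ) (q : Polynomial ℤ) :
    Polynomial.aeval a (q.map (Int.castRingHom ℚ)) = Polynomial.aeval a q := by
  have h : Int.castRingHom ℚ = algebraMap ℤ ℚ := rfl
  rw [h, Polynomial.aeval_map_algebraMap]

lemma minpoly_rt (hm : g.Monic) (hi : Irreducible g) {a : ℂ} (ha : a ∈ rt g) :
    minpoly ℚ a = g.map (Int.castRingHom ℚ) := by
  symm
  apply minpoly.eq_of_irreducible_of_monic (map_irr hm hi) _ (hm.map _)
  rw [mem_rt_iff hm] at ha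
  rw [aeval_mapQ, ha]

lemma aeval_all (hm : g.Monic) (hi : Irreducible g) {a b : ℂ} (ha : a ∈ rt g) (hb : b ∈ rt g)
    {q : Polynomial ℚ} (h : Polynomial.aeval a q = 0) : Polynomial.aeval b q = 0 := by
  have h1 : minpoly ℚ a ∣ q := minpoly.dvd _ _ h
  rw [minpoly_rt hm hi ha, ← minpoly_rt hm hi hb] at h1
  obtain ⟨r, rfl⟩ := h1
  rw [map_mul, minpoly.aeval, zero_mul]

lemma eq_of_pow_eq {a b : ℂ} {P p : ℕ} (hc : Nat.Coprime P p) (hp : p ≠ 0) (h1 : a ^ P = b ^ P)
    (h2 : a ^ p = b ^ p) : a = b := by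
  by_cases hb : b = 0
  · subst hb
    rw [zero_pow hp] at h2
    exact pow_eq_zero_iff hp |>.mp h2
  have e1 : (a / b) ^ P = 1 := by rw [div_pow, h1, div_self (pow_ne_zero _ hb)]
  have e2 : (a / b) ^ p = 1 := by rw [div_pow, h2, div_self (pow_ne_zero _ hb)]
  have e3 : orderOf (a / b) ∣ Nat.gcd P p :=
    Nat.dvd_gcd (orderOf_dvd_of_pow_eq_one e1) (orderOf_dvd_of_pow_eq_one e2)
  rw [hc, Nat.dvd_one, orderOf_eq_one_iff] at e3
  rwa [div_eq_one_iff_eq hb] at e3

/-- the primes for which two distinct conjugates have the same `p`-th power -/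
def badP (g : Polynomial ℤ) : Set ℕ :=
  {p | p.Prime ∧ ∃ a ∈ rt g, ∃ b ∈ rt g, a ≠ b ∧ a ^ p = b ^ p}

lemma adjoin_pow_le (α : ℂ) (P p : ℕ) :
    IntermediateField.adjoin ℚ {α ^ (P * p)} ≤ IntermediateField.adjoin ℚ {α ^ P} := by
  rw [IntermediateField.adjoin_simple_le_iff, pow_mul]
  exact pow_mem (IntermediateField.mem_adjoin_simple_self ℚ _) _

lemma finrank_step (hm : g.Monic) (hi : Irreducible g) {α : ℂ} (hα : α ∈ rt g) {P p : ℕ}
    (hc : Nat.Coprime P p) (hp : p ∈ badP g) :
    2 * Module.finrank ℚ (IntermediateField.adjoin ℚ {α ^ (P * p)}) ≤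
      Module.finrank ℚ (IntermediateField.adjoin ℚ {α ^ P}) := by
  have hint : IsIntegral ℚ α := by
    have h1 : minpoly ℚ α ≠ 0 := by
      rw [minpoly_rt hm hi hα]
      exact (hm.map _).ne_zero
    exact minpoly.ne_zero_iff.mp h1
  have hle := adjoin_pow_le α P p
  have : FiniteDimensional ℚ (IntermediateField.adjoin ℚ {α ^ P}) :=
    IntermediateField.adjoin.finiteDimensional (hint.pow P)
  obtain ⟨hpp, a, ha, b, hb, hab, hpow⟩ := hp
  have hne : IntermediateField.adjoin ℚ {α ^ (P * p)} ≠ IntermediateField.adjoin ℚ {α ^ P} := by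
    intro heq
    have h1 : α ^ P ∈ IntermediateField.adjoin ℚ {α ^ (P * p)} := by
      rw [heq]; exact IntermediateField.mem_adjoin_simple_self ℚ _
    have h2 : IsAlgebraic ℚ (α ^ (P * p)) := (hint.pow _).isAlgebraic
    rw [← IntermediateField.mem_toSubalgebra,
      IntermediateField.adjoin_simple_toSubalgebra_of_isAlgebraic h2,
      Algebra.adjoin_singleton_eq_range_aeval] at h1
    obtain ⟨q, hq⟩ := h1
    have h3 : Polynomial.aeval α (Polynomial.X ^ P - q.comp (Polynomial.X ^ (P * p))) = 0 := by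
      rw [map_sub, Polynomial.aeval_comp]
      simp only [map_pow, Polynomial.aeval_X]
      rw [sub_eq_zero]
      exact hq.symm
    have h4 : ∀ c ∈ rt g, c ^ P = Polynomial.aeval (c ^ (P * p)) q := by
      intro c hc'
      have h5 := aeval_all hm hi hα hc' h3
      rw [map_sub, Polynomial.aeval_comp] at h5
      simp only [map_pow, Polynomial.aeval_X] at h5
      exact sub_eq_zero.mp h5
    apply hab
    apply eq_of_pow_eq hc hpp.ne_zero _ hpow
    rw [h4 a ha, h4 b hb, mul_comm P p, pow_mul, pow_mul, hpow]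
  have hdvd : Module.finrank ℚ (IntermediateField.adjoin ℚ {α ^ (P * p)}) ∣
      Module.finrank ℚ (IntermediateField.adjoin ℚ {α ^ P}) :=
    IntermediateField.finrank_dvd_of_le_right hle
  have hne2 : Module.finrank ℚ (IntermediateField.adjoin ℚ {α ^ (P * p)}) ≠
      Module.finrank ℚ (IntermediateField.adjoin ℚ {α ^ P}) := by
    intro h
    exact hne (IntermediateField.eq_of_le_of_finrank_eq hle h)
  have hpos : 0 < Module.finrank ℚ (IntermediateField.adjoin ℚ {α ^ P}) := Module.finrank_pos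
  obtain ⟨k, hk⟩ := hdvd
  rcases k with _ | _ | k
  · omega
  · rw [hk] at hne2; simp at hne2
  · rw [hk]; nlinarith

lemma finrank_bad (hm : g.Monic) (hi : Irreducible g) {α : ℂ} (hα : α ∈ rt g) (s : Finset ℕ)
    (hs : ∀ p ∈ s, p ∈ badP g) :
    2 ^ #s * Module.finrank ℚ (IntermediateField.adjoin ℚ {α ^ (∏ p ∈ s, p)}) ≤
      g.natDegree := by
  induction s using Finset.induction_on with
  | empty =>
    rw [card_empty, pow_zero, one_mul, prod_empty, pow_one]
    have hint : IsIntegral ℚ α := by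
      have h1 : minpoly ℚ α ≠ 0 := by
        rw [minpoly_rt hm hi hα]
        exact (hm.map _).ne_zero
      exact minpoly.ne_zero_iff.mp h1
    rw [IntermediateField.adjoin.finrank hint, minpoly_rt hm hi hα, hm.natDegree_map]
  | insert p s hps ih =>
    rw [card_insert_of_notMem hps, prod_insert hps]
    have h1 := ih fun q hq => hs q (mem_insert_of_mem hq)
    have hp := hs p (mem_insert_self _ _)
    have hc : Nat.Coprime (∏ q ∈ s, q) p := by
      apply Nat.Coprime.prod_left
      intro q hq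
      have hq' := (hs q (mem_insert_of_mem hq)).1
      rw [Nat.coprime_primes hq' hp.1]
      rintro rfl
      exact hps hq
    have h2 := finrank_step hm hi hα hc hp
    rw [mul_comm p, pow_succ]
    calc 2 ^ #s * 2 * Module.finrank ℚ (IntermediateField.adjoin ℚ {α ^ ((∏ q ∈ s, q) * p)})
        = 2 ^ #s * (2 * Module.finrank ℚ (IntermediateField.adjoin ℚ {α ^ ((∏ q ∈ s, q) * p)})) := by
          ring
      _ ≤ 2 ^ #s * Module.finrank ℚ (IntermediateField.adjoin ℚ {α ^ (∏ q ∈ s, q)}) := by gcongr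
      _ ≤ _ := h1

lemma card_bad (hm : g.Monic) (hi : Irreducible g) (hd : 1 ≤ g.natDegree) (s : Finset ℕ)
    (hs : ∀ p ∈ s, p ∈ badP g) : 2 ^ #s ≤ g.natDegree := by
  have h1 : (rt g).Nonempty := by
    rw [← card_pos, card_rt hm hi]; omega
  obtain ⟨α, hα⟩ := h1
  have hint : IsIntegral ℚ α := by
    have h1 : minpoly ℚ α ≠ 0 := by
      rw [minpoly_rt hm hi hα]
      exact (hm.map _).ne_zero
    exact minpoly.ne_zero_iff.mp h1
  have : FiniteDimensional ℚ (IntermediateField.adjoin ℚ {α ^ (∏ p ∈ s, p)}) :=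
    IntermediateField.adjoin.finiteDimensional (hint.pow _)
  have hpos : 0 < Module.finrank ℚ (IntermediateField.adjoin ℚ {α ^ (∏ p ∈ s, p)}) :=
    Module.finrank_pos
  have h2 := finrank_bad hm hi hα s hs
  nlinarith

lemma badP_finite (hm : g.Monic) (hi : Irreducible g) (hd : 1 ≤ g.natDegree) :
    (badP g).Finite := by
  by_contra h
  obtain ⟨s, hs, hcard⟩ := Set.Infinite.exists_subset_card_eq h g.natDegree
  have h1 := card_bad hm hi hd s fun p hp => hs hp
  rw [hcard] at h1
  exact absurd h1 (not_le.mpr Nat.lt_two_pow_self)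

lemma pow_poly (hm : g.Monic) (hi : Irreducible g) (hd : 1 ≤ g.natDegree) {p : ℕ}
    (hp : p.Prime) (hpb : p ∉ badP g) :
    ∃ h : Polynomial ℤ, h.Monic ∧ h.natDegree = g.natDegree ∧ MM h = MM g ^ p ∧
      ∀ D : Polynomial ℤ, g ∣ Polynomial.expand ℤ p D → h ∣ D := by
  have h1 : (rt g).Nonempty := by
    rw [← card_pos, card_rt hm hi]; omega
  obtain ⟨α, hα⟩ := h1
  have hα0 : Polynomial.aeval α g = 0 := (mem_rt_iff hm).mp hα
  have hint : IsIntegral ℤ α := ⟨g, hm, by rw [Polynomial.aeval_def] at hα0; exact hα0⟩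
  have hintp : IsIntegral ℤ (α ^ p) := hint.pow p
  have hintQ : IsIntegral ℚ α := hint.tower_top
  set h := minpoly ℤ (α ^ p) with hh
  have hhm : h.Monic := minpoly.monic hintp
  have hQ : minpoly ℚ (α ^ p) = h.map (algebraMap ℤ ℚ) :=
    minpoly.isIntegrallyClosed_eq_field_fractions' ℚ hintp
  have hhi : Irreducible h := by
    rw [Polynomial.IsPrimitive.Int.irreducible_iff_irreducible_map_cast hhm.isPrimitive]
    have := minpoly.irreducible (hintQ.pow p)
    rw [hQ] at this
    exact this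
  have hle : h.natDegree ≤ g.natDegree := by
    have e1 : h.natDegree = (minpoly ℚ (α ^ p)).natDegree := by
      rw [hQ, hhm.natDegree_map]
    have e2 : g.natDegree = (minpoly ℚ α).natDegree := by
      rw [minpoly_rt hm hi hα, hm.natDegree_map]
    rw [e1, e2, ← IntermediateField.adjoin.finrank hintQ,
      ← IntermediateField.adjoin.finrank (hintQ.pow p)]
    have : FiniteDimensional ℚ (IntermediateField.adjoin ℚ {α}) :=
      IntermediateField.adjoin.finiteDimensional hintQ
    have e3 := adjoin_pow_le α 1 p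
    rw [pow_one, one_mul] at e3
    exact IntermediateField.finrank_le_of_le_right e3
  have hroots : (rt g).image (fun a => a ^ p) ⊆ rt h := by
    intro b hb
    obtain ⟨a, ha, rfl⟩ := mem_image.mp hb
    rw [mem_rt_iff hhm]
    have e1 : Polynomial.aeval α ((Polynomial.expand ℤ p h).map (Int.castRingHom ℚ)) = 0 := by
      rw [aeval_mapQ, Polynomial.expand_aeval]
      exact minpoly.aeval _ _
    have e2 := aeval_all hm hi hα ha e1
    rwa [aeval_mapQ, Polynomial.expand_aeval] at e2
  have hinj : Set.InjOn (fun a : ℂ => a ^ p) (rt g : Set ℂ) := by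
    intro a ha b hb hab
    by_contra hne
    exact hpb ⟨hp, a, ha, b, hb, hne, hab⟩
  have hcard : #((rt g).image fun a => a ^ p) = g.natDegree := by
    rw [card_image_of_injOn hinj, card_rt hm hi]
  have heq : (rt g).image (fun a => a ^ p) = rt h := by
    apply eq_of_subset_of_card_le hroots
    rw [card_rt hhm hhi, hcard]
    exact hle
  refine ⟨h, hhm, ?_, ?_, ?_⟩
  · rw [← card_rt hhm hhi, ← heq, hcard]
  · rw [MM_eq hhm hhi, MM_eq hm hi, ← heq, prod_image hinj, ← prod_pow]
    refine prod_congr rfl fun a _ => ?_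
    rw [norm_pow]
    rcases le_total ‖a‖ 1 with h1 | h1
    · rw [max_eq_left h1, max_eq_left (pow_le_one₀ (norm_nonneg _) h1), one_pow]
    · rw [max_eq_right h1, max_eq_right (one_le_pow₀ h1)]
  · intro D hD
    apply minpoly.isIntegrallyClosed_dvd hintp
    obtain ⟨q, hq⟩ := hD
    rw [← Polynomial.expand_aeval, hq, map_mul, hα0, zero_mul]

/-- PACKAGE G (Dobrowolski's degree lemma + the polynomial of the `p`-th powers). -/
theorem deg_lemma (g : Polynomial ℤ) (hm : g.Monic) (hi : Irreducible g) (hd : 1 ≤ g.natDegree)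
    (_h0 : g.coeff 0 ≠ 0) :
    ∃ B : Finset ℕ, 2 ^ #B ≤ g.natDegree ∧ ∀ p : ℕ, p.Prime → p ∉ B →
      ∃ h : Polynomial ℤ, h.Monic ∧ h.natDegree = g.natDegree ∧ MM h = MM g ^ p ∧
        ∀ D : Polynomial ℤ, g ∣ Polynomial.expand ℤ p D → h ∣ D := by
  refine ⟨(badP_finite hm hi hd).toFinset, ?_, ?_⟩
  · apply card_bad hm hi hd
    intro p hp
    exact (Set.Finite.mem_toFinset _).mp hp
  · intro p hp hpB
    rw [Set.Finite.mem_toFinset] at hpB
    exact pow_poly hm hi hd hp hpB

end DegLemma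

end Pool.Agent.Helper79.LC
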