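import Pool.Agent.Helper79.LH.Mul
import Mathlib

/-!
A reducible polynomial with coefficients `0, 1` has a cyclotomic factor, or a noncyclotomic
irreducible factor of Mahler measure at most `2 n ^ 0.23`, or a factor of degree at least `n / 2` and
Mahler measure at most `n ^ 0.27`.
-/

open Finset Filter

namespace Pool.Agent.Helper79.LC

lemma monic_pol {n : ℕ} (hn : 1 ≤ n) {S : Finset ℕ} (hS : S ⊆ Ioo 0 n) : (pol n S).Monic := by
  rw [Polynomial.Monic, Polynomial.leadingCoeff, natDegree_pol hn hS, coeff_pol, if_pos rfl,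
    if_neg (by omega), if_neg (fun h => by have := mem_Ioo.mp (hS h); omega)]
  norm_num

lemma coeff_zero_pol {n : ℕ} (hn : 1 ≤ n) {S : Finset ℕ} (hS : S ⊆ Ioo 0 n) :
    (pol n S).coeff 0 = 1 := by
  rw [coeff_pol, if_neg (by omega), if_pos rfl,
    if_neg (fun h => by have := mem_Ioo.mp (hS h); omega)]
  norm_num

lemma eval_one_pol {n : ℕ} (S : Finset ℕ) : 0 < (pol n S).eval 1 := by
  rw [pol, Polynomial.eval_add, Polynomial.eval_add, Polynomial.eval_finsetSum]
  simp only [Polynomial.eval_pow, Polynomial.eval_X, one_pow, Polynomial.eval_one, sum_const,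
    nsmul_eq_mul, mul_one]
  positivity

/-- PACKAGE H, third part: every reducible polynomial is of one of the three kinds. -/
theorem three_kinds {n : ℕ} (hn : 2 ≤ n) {S : Finset ℕ} (hS : S ⊆ Ioo 0 n)
    (h : ¬ Irreducible (pol n S)) :
    (∃ k, 2 ≤ k ∧ Polynomial.cyclotomic k ℤ ∣ pol n S) ∨
    (∃ g : Polynomial ℤ, Irreducible g ∧ 1 ≤ g.natDegree ∧ 1 < MM g ∧
        MM g ≤ 2 * (n : ℝ) ^ (0.23 : ℝ) ∧ g ∣ pol n S) ∨
    (∃ u : Polynomial ℤ, n ≤ 2 * u.natDegree ∧ MM u ≤ (n : ℝ) ^ (0.27 : ℝ) ∧ u ∣ pol n S) := by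
  have hn1 : 1 ≤ n := by omega
  have hmon := monic_pol hn1 hS
  have hdeg := natDegree_pol hn1 hS
  have hM := MM_pol_le hn1 hS
  have hne1 : pol n S ≠ 1 := by
    intro h1
    rw [h1, Polynomial.natDegree_one] at hdeg
    omega
  rw [hmon.irreducible_iff_natDegree'] at h
  push Not at h
  obtain ⟨f, g, hf, hg, hfg, hgd⟩ := h hne1
  rw [mem_Ioc, hdeg] at hgd
  have hgu : ¬ IsUnit g := by
    intro hu
    have := Polynomial.natDegree_eq_zero_of_isUnit hu
    omega
  obtain ⟨q, hq, r, hr⟩ := WfDvdMonoid.exists_irreducible_factor hgu hg.ne_zero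
  have hr0 : r ≠ 0 := by
    rintro rfl
    rw [mul_zero] at hr
    exact hg.ne_zero hr
  have hq0 : q ≠ 0 := hq.ne_zero
  have hpol : pol n S = q * (f * r) := by rw [← hfg, hr]; ring
  have hqd : 1 ≤ q.natDegree := by
    by_contra hcon
    have h1 : q.natDegree = 0 := by omega
    have h2 := Polynomial.eq_C_of_natDegree_eq_zero h1
    apply hq.not_isUnit
    rw [h2, Polynomial.isUnit_C]
    have h3 : g.leadingCoeff = q.leadingCoeff * r.leadingCoeff := by
      rw [hr, Polynomial.leadingCoeff_mul]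
    rw [hg.leadingCoeff] at h3
    have h4 : q.leadingCoeff = q.coeff 0 := by rw [Polynomial.leadingCoeff, h1]
    rw [← h4]
    exact IsUnit.of_mul_eq_one _ h3.symm
  have hud : n ≤ 2 * (f * r).natDegree := by
    have h1 : n = f.natDegree + g.natDegree := by
      rw [← hdeg, ← hfg, hf.natDegree_mul hg]
    have h2 : (f * r).natDegree = f.natDegree + r.natDegree :=
      Polynomial.natDegree_mul hf.ne_zero hr0
    omega
  have hqdvd : q ∣ pol n S := ⟨f * r, hpol⟩
  have hudvd : f * r ∣ pol n S := ⟨q, by rw [hpol]; ring⟩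
  by_cases hu : MM (f * r) ≤ (n : ℝ) ^ (0.27 : ℝ)
  · exact Or.inr (Or.inr ⟨f * r, hud, hu, hudvd⟩)
  push Not at hu
  have hn0 : (0 : ℝ) < n := by positivity
  have hn2 : (2 : ℝ) ≤ n := by exact_mod_cast hn
  have h27 : 0 < (n : ℝ) ^ (0.27 : ℝ) := Real.rpow_pos_of_pos hn0 _
  have h23 : 0 < (n : ℝ) ^ (0.23 : ℝ) := Real.rpow_pos_of_pos hn0 _
  have hqM1 : 1 ≤ MM q := one_le_MM' hq0
  have hqM : MM q ≤ 2 * (n : ℝ) ^ (0.23 : ℝ) := by
    rw [hpol, MM_mul] at hM
    have h1 : √((n : ℝ) + 1) ≤ 2 * ((n : ℝ) ^ (0.23 : ℝ) * (n : ℝ) ^ (0.27 : ℝ)) := by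
      rw [← Real.rpow_add hn0]
      have h2 : (0.23 : ℝ) + 0.27 = 1 / 2 := by norm_num
      rw [h2, ← Real.sqrt_eq_rpow]
      apply Real.sqrt_le_iff.mpr
      refine ⟨by positivity, ?_⟩
      rw [mul_pow, Real.sq_sqrt hn0.le]
      linarith
    by_contra hcon
    push Not at hcon
    have h3 : 2 * (n : ℝ) ^ (0.23 : ℝ) * (n : ℝ) ^ (0.27 : ℝ) < MM q * MM (f * r) :=
      mul_lt_mul'' hcon hu (by positivity) h27.le
    linarith
  rcases hqM1.lt_or_eq with h1 | h1
  · exact Or.inr (Or.inl ⟨q, hq, hqd, h1, hqM, hqdvd⟩)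
  left
  have hX : ¬ Polynomial.X ∣ q := by
    intro hx
    have h2 := hx.trans hqdvd
    rw [Polynomial.X_dvd_iff, coeff_zero_pol hn1 hS] at h2
    exact one_ne_zero h2
  have hdq : q.degree ≠ 0 := by
    intro h2
    have h3 : q.natDegree = 0 := Polynomial.natDegree_eq_of_degree_eq_some h2
    omega
  obtain ⟨k, hk, hkd⟩ := Polynomial.cyclotomic_dvd_of_mahlerMeasure_eq_one
    (p := q) h1.symm hX hdq
  refine ⟨k, ?_, hkd.trans hqdvd⟩
  by_contra hk2
  have hk1 : k = 1 := by omega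
  subst hk1
  have h2 := hkd.trans hqdvd
  rw [Polynomial.cyclotomic_one] at h2
  have h3 : (pol n S).IsRoot 1 := by
    rw [← Polynomial.dvd_iff_isRoot]
    simpa using h2
  have h4 := eval_one_pol (n := n) S
  rw [Polynomial.IsRoot.def] at h3
  omega

end Pool.Agent.Helper79.LC
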