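import Pool.Agent.Helper79.LH.Mul
import Mathlib

/-!
An integer polynomial `g` such that the polynomial `h` of the `p`-th powers of its roots has a large
Mahler measure divides few of the polynomials with coefficients `0, 1`.
-/

open Finset

namespace Pool.Agent.Helper79.LC

section ProbLe

/-- the difference of two polynomials which agree outside the multiples of `p` -/
noncomputable def dif (p N : ℕ) (S S' : Finset ℕ) : Polynomial ℤ :=
  ∑ j ∈ Icc 1 N, Polynomial.monomial j
    ((if p * j ∈ S then (1 : ℤ) else 0) - (if p * j ∈ S' then 1 else 0))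

lemma coeff_dif (p N : ℕ) (S S' : Finset ℕ) (k : ℕ) : (dif p N S S').coeff k =
    if k ∈ Icc 1 N then ((if p * k ∈ S then (1 : ℤ) else 0) - (if p * k ∈ S' then 1 else 0))
      else 0 := by
  rw [dif, Polynomial.finsetSum_coeff]
  simp_rw [Polynomial.coeff_monomial]
  rw [sum_ite_eq' (Icc 1 N) k]

lemma natDegree_dif (p N : ℕ) (S S' : Finset ℕ) : (dif p N S S').natDegree ≤ N := by
  rw [Polynomial.natDegree_le_iff_coeff_eq_zero]
  intro k hk
  rw [coeff_dif, if_neg]
  rw [mem_Icc]; omega

lemma MM_dif (p N : ℕ) (S S' : Finset ℕ) : MM (dif p N S S') ≤ √((N : ℝ) + 1) := by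
  rw [MM]
  refine (Polynomial.mahlerMeasure_le_sqrt_natDegree_add_one_mul_supNorm _).trans ?_
  rw [mapC_deg]
  have h1 : ((dif p N S S').map (Int.castRingHom ℂ)).supNorm ≤ 1 := by
    obtain ⟨i, hi⟩ := Polynomial.exists_eq_supNorm ((dif p N S S').map (Int.castRingHom ℂ))
    rw [hi, Polynomial.coeff_map]
    have h2 : |(dif p N S S').coeff i| ≤ 1 := by
      rw [coeff_dif]
      split_ifs <;> norm_num
    have h3 : ‖(Int.castRingHom ℂ) ((dif p N S S').coeff i)‖ =
        ((|(dif p N S S').coeff i| : ℤ) : ℝ) := by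
      rw [eq_intCast, Complex.norm_intCast]; push_cast; rfl
    rw [h3]
    exact_mod_cast h2
  have h4 : ((dif p N S S').natDegree : ℝ) ≤ N := by exact_mod_cast natDegree_dif p N S S'
  calc √(((dif p N S S').natDegree : ℝ) + 1) * ((dif p N S S').map (Int.castRingHom ℂ)).supNorm
      ≤ √((N : ℝ) + 1) * 1 := by
        apply mul_le_mul _ h1 (Polynomial.supNorm_nonneg _) (Real.sqrt_nonneg _)
        exact Real.sqrt_le_sqrt (by linarith)
    _ = _ := mul_one _

/-- the multiples of `p` -/
def mulP (p N : ℕ) : Finset ℕ := (Icc 1 N).image fun j => p * j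

lemma mem_mulP {p N k : ℕ} : k ∈ mulP p N ↔ ∃ j, 1 ≤ j ∧ j ≤ N ∧ p * j = k := by
  rw [mulP, mem_image]
  constructor
  · rintro ⟨j, hj, rfl⟩
    exact ⟨j, (mem_Icc.mp hj).1, (mem_Icc.mp hj).2, rfl⟩
  · rintro ⟨j, h1, h2, rfl⟩
    exact ⟨j, mem_Icc.mpr ⟨h1, h2⟩, rfl⟩

lemma card_mulP {p : ℕ} (N : ℕ) (hp : 1 ≤ p) : #(mulP p N) = N := by
  rw [mulP, card_image_of_injective, Nat.card_Icc, Nat.add_sub_cancel]
  intro a b hab
  exact Nat.eq_of_mul_eq_mul_left (by omega) hab

lemma mulP_sub {n p N : ℕ} (hp : 1 ≤ p) (hN : N * p < n) : mulP p N ⊆ Ioo 0 n := by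
  intro k hk
  obtain ⟨j, h1, h2, rfl⟩ := mem_mulP.mp hk
  rw [mem_Ioo]
  refine ⟨by positivity, ?_⟩
  calc p * j ≤ p * N := Nat.mul_le_mul_left _ h2
    _ = N * p := mul_comm _ _
    _ < n := hN

lemma expand_dif {n p N : ℕ} (hp : 1 ≤ p) {S S' : Finset ℕ}
    (h : S \ mulP p N = S' \ mulP p N) :
    Polynomial.expand ℤ p (dif p N S S') = pol n S - pol n S' := by
  ext k
  rw [Polynomial.coeff_expand (by omega), Polynomial.coeff_sub, coeff_pol, coeff_pol]
  have hk : k ∉ mulP p N → (k ∈ S ↔ k ∈ S') := by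
    intro hk
    have h1 := Finset.ext_iff.mp h k
    rw [mem_sdiff, mem_sdiff] at h1
    tauto
  by_cases hpk : p ∣ k
  · rw [if_pos hpk, coeff_dif, Nat.mul_div_cancel' hpk]
    by_cases hj : k / p ∈ Icc 1 N
    · rw [if_pos hj]; ring
    · rw [if_neg hj]
      have h2 : k ∉ mulP p N := by
        intro h3
        obtain ⟨j, h4, h5, rfl⟩ := mem_mulP.mp h3
        apply hj
        rw [Nat.mul_div_cancel_left _ (by omega : 0 < p), mem_Icc]
        exact ⟨h4, h5⟩
      have h3 := hk h2
      by_cases h4 : k ∈ S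
      · rw [if_pos h4, if_pos (h3.mp h4)]; ring
      · rw [if_neg h4, if_neg (fun h5 => h4 (h3.mpr h5))]; ring
  · rw [if_neg hpk]
    have h2 : k ∉ mulP p N := by
      intro h3
      obtain ⟨j, h4, h5, rfl⟩ := mem_mulP.mp h3
      exact hpk ⟨j, rfl⟩
    have h3 := hk h2
    by_cases h4 : k ∈ S
    · rw [if_pos h4, if_pos (h3.mp h4)]; ring
    · rw [if_neg h4, if_neg (fun h5 => h4 (h3.mpr h5))]; ring

/-- PACKAGE P (a fixed `g` such that `h` has large Mahler measure divides few of the polynomials). -/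
theorem prob_le {n p N : ℕ} (hp : 1 ≤ p) (hN : N * p < n) {g h : Polynomial ℤ} {T : ℝ}
    (hg : ∀ D : Polynomial ℤ, g ∣ Polynomial.expand ℤ p D → h ∣ D) (hT : 0 ≤ T)
    (hM : √((N : ℝ) + 1) ≤ T * MM h) :
    (({S : Finset ℕ | S ⊆ Ioo 0 n ∧ g ∣ pol n S} : Set (Finset ℕ)).ncard : ℝ) ≤
      2 ^ (n - 1 - N) * ((famT N T).ncard : ℝ) := by
  classical
  have hsq : 0 < √((N : ℝ) + 1) := Real.sqrt_pos.mpr (by positivity)
  have hh0 : h ≠ 0 := by
    rintro rfl
    have : MM 0 = 0 := by simp [MM]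
    rw [this, mul_zero] at hM
    linarith
  have hMM : 1 ≤ MM h := one_le_MM' hh0
  set F : Finset (Finset ℕ) := (Ioo 0 n).powerset.filter fun S => g ∣ pol n S with hF
  have hset : ({S : Finset ℕ | S ⊆ Ioo 0 n ∧ g ∣ pol n S} : Set (Finset ℕ)) = (F : Set (Finset ℕ)) := by
    ext S
    rw [hF, mem_coe, mem_filter, mem_powerset]
    rfl
  rw [hset, Set.ncard_coe_finset]
  have hfin := finite_famT N hT
  have hfib : ∀ b ∈ F.image (fun S => S \ mulP p N), #{a ∈ F | a \ mulP p N = b} ≤
      (famT N T).ncard := by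
    intro b hb
    obtain ⟨S', hS', rfl⟩ := mem_image.mp hb
    rw [hF, mem_filter, mem_powerset] at hS'
    have hdvd : ∀ S ∈ ({a ∈ F | a \ mulP p N = S' \ mulP p N} : Finset (Finset ℕ)),
        h ∣ dif p N S S' := by
      intro S hS
      obtain ⟨h1, h2⟩ := mem_filter.mp hS
      rw [hF, mem_filter, mem_powerset] at h1
      apply hg
      rw [expand_dif (n := n) hp h2]
      exact dvd_sub h1.2 hS'.2
    rw [Set.ncard_eq_toFinset_card _ hfin]
    apply card_le_card_of_injOn (fun S => if hd : h ∣ dif p N S S' then hd.choose else 0)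
    · intro S hS
      have h1 := hdvd S hS
      have h2 := h1.choose_spec
      simp only [dif_pos h1]
      rw [mem_coe, Set.Finite.mem_toFinset]
      by_cases h3 : h1.choose = 0
      · rw [h3]
        refine ⟨by simp, ?_⟩
        have : MM 0 = 0 := by simp [MM]
        rw [this]; exact hT
      · refine ⟨?_, ?_⟩
        · have h4 := natDegree_dif p N S S'
          rw [h2, Polynomial.natDegree_mul hh0 h3] at h4
          omega
        · have h4 := MM_dif p N S S'
          rw [h2, MM_mul] at h4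
          have h5 : MM h * MM h1.choose ≤ MM h * T := by linarith
          exact le_of_mul_le_mul_left h5 (by linarith)
    · intro S hS R hR hSR
      have h1 := hdvd S hS
      have h2 := hdvd R hR
      simp only [dif_pos h1, dif_pos h2] at hSR
      have h3 : dif p N S S' = dif p N R S' := by
        rw [h1.choose_spec, h2.choose_spec, hSR]
      obtain ⟨_, e1⟩ := mem_filter.mp hS
      obtain ⟨_, e2⟩ := mem_filter.mp hR
      ext k
      by_cases hk : k ∈ mulP p N
      · obtain ⟨j, h4, h5, rfl⟩ := mem_mulP.mp hk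
        have h6 := congrArg (fun q => Polynomial.coeff q j) h3
        simp only [coeff_dif] at h6
        rw [if_pos (mem_Icc.mpr ⟨h4, h5⟩), if_pos (mem_Icc.mpr ⟨h4, h5⟩)] at h6
        by_cases h7 : p * j ∈ S
        · by_cases h8 : p * j ∈ R
          · simp [h7, h8]
          · rw [if_pos h7, if_neg h8] at h6; omega
        · by_cases h8 : p * j ∈ R
          · rw [if_neg h7, if_pos h8] at h6; omega
          · simp [h7, h8]
      · have h6 := Finset.ext_iff.mp (e1.trans e2.symm) k
        rw [mem_sdiff, mem_sdiff] at h6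
        tauto
  have h1 := card_le_mul_card_image F _ hfib
  have h2 : #(F.image fun S => S \ mulP p N) ≤ 2 ^ (n - 1 - N) := by
    have h3 : F.image (fun S => S \ mulP p N) ⊆ (Ioo 0 n \ mulP p N).powerset := by
      intro b hb
      obtain ⟨S, hS, rfl⟩ := mem_image.mp hb
      rw [hF, mem_filter, mem_powerset] at hS
      rw [mem_powerset]
      exact sdiff_subset_sdiff hS.1 (subset_refl _)
    refine (card_le_card h3).trans ?_
    rw [card_powerset, card_sdiff_of_subset (mulP_sub hp hN), card_mulP N hp, Nat.card_Ioo]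
    exact Nat.pow_le_pow_right (by norm_num) (by omega)
  have h3 : #F ≤ 2 ^ (n - 1 - N) * (famT N T).ncard := by
    calc #F ≤ (famT N T).ncard * #(F.image fun S => S \ mulP p N) := h1
      _ ≤ (famT N T).ncard * 2 ^ (n - 1 - N) := by gcongr
      _ = _ := mul_comm _ _
  exact_mod_cast h3

end ProbLe

end Pool.Agent.Helper79.LC
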