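import Pool.Agent.Helper7.OP.H2
import Pool.Agent.Helper7.OP.H3

/-!
The Odlyzko-Poonen conjecture from the three estimates.
-/

open Finset Filter

namespace Pool.Agent.Helper79.LC

/-- The Odlyzko-Poonen conjecture from the three estimates. -/
theorem final_of_three
    (hA : Tendsto (fun n : ℕ => (({S : Finset ℕ | S ⊆ Ioo 0 n ∧
      ∃ k, 2 ≤ k ∧ Polynomial.cyclotomic k ℤ ∣ pol n S} : Set (Finset ℕ)).ncard : ℝ) /
        (2 : ℝ) ^ (n - 1)) atTop (nhds 0))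
    (hB : Tendsto (fun n : ℕ => (({S : Finset ℕ | S ⊆ Ioo 0 n ∧
      ∃ g : Polynomial ℤ, Irreducible g ∧ 1 ≤ g.natDegree ∧ 1 < MM g ∧
        MM g ≤ 2 * (n : ℝ) ^ (0.23 : ℝ) ∧ g ∣ pol n S} : Set (Finset ℕ)).ncard : ℝ) /
        (2 : ℝ) ^ (n - 1)) atTop (nhds 0))
    (hC : Tendsto (fun n : ℕ => (({S : Finset ℕ | S ⊆ Ioo 0 n ∧
      ∃ u : Polynomial ℤ, n ≤ 2 * u.natDegree ∧
        MM u ≤ (n : ℝ) ^ (0.27 : ℝ) ∧ u ∣ pol n S} : Set (Finset ℕ)).ncard : ℝ) /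
        (2 : ℝ) ^ (n - 1)) atTop (nhds 0)) :
    Tendsto (fun n : ℕ => (({S : Finset ℕ | S ⊆ Finset.Ioo 0 n ∧
            Irreducible ((Polynomial.X : Polynomial ℤ) ^ n + 1 +
              ∑ i ∈ S, (Polynomial.X : Polynomial ℤ) ^ i)} : Set (Finset ℕ)).ncard : ℝ)
          / (2 : ℝ) ^ (n - 1)) atTop (nhds 1) := by
  have hlow : Tendsto (fun n : ℕ => 1 - (((({S : Finset ℕ | S ⊆ Ioo 0 n ∧
      ∃ k, 2 ≤ k ∧ Polynomial.cyclotomic k ℤ ∣ pol n S} : Set (Finset ℕ)).ncard : ℝ) /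
        (2 : ℝ) ^ (n - 1) + (({S : Finset ℕ | S ⊆ Ioo 0 n ∧
      ∃ g : Polynomial ℤ, Irreducible g ∧ 1 ≤ g.natDegree ∧ 1 < MM g ∧
        MM g ≤ 2 * (n : ℝ) ^ (0.23 : ℝ) ∧ g ∣ pol n S} : Set (Finset ℕ)).ncard : ℝ) /
        (2 : ℝ) ^ (n - 1)) + (({S : Finset ℕ | S ⊆ Ioo 0 n ∧
      ∃ u : Polynomial ℤ, n ≤ 2 * u.natDegree ∧
        MM u ≤ (n : ℝ) ^ (0.27 : ℝ) ∧ u ∣ pol n S} : Set (Finset ℕ)).ncard : ℝ) /
        (2 : ℝ) ^ (n - 1))) atTop (nhds 1) := by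
    have := ((hA.add hB).add hC).const_sub 1
    simpa using this
  refine tendsto_of_tendsto_of_tendsto_of_le_of_le' hlow tendsto_const_nhds ?_ ?_
  · filter_upwards [eventually_ge_atTop 2] with n hn
    set A : Set (Finset ℕ) := {S : Finset ℕ | S ⊆ Ioo 0 n ∧
      ∃ k, 2 ≤ k ∧ Polynomial.cyclotomic k ℤ ∣ pol n S} with hAd
    set B : Set (Finset ℕ) := {S : Finset ℕ | S ⊆ Ioo 0 n ∧
      ∃ g : Polynomial ℤ, Irreducible g ∧ 1 ≤ g.natDegree ∧ 1 < MM g ∧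
        MM g ≤ 2 * (n : ℝ) ^ (0.23 : ℝ) ∧ g ∣ pol n S} with hBd
    set C : Set (Finset ℕ) := {S : Finset ℕ | S ⊆ Ioo 0 n ∧
      ∃ u : Polynomial ℤ, n ≤ 2 * u.natDegree ∧
        MM u ≤ (n : ℝ) ^ (0.27 : ℝ) ∧ u ∣ pol n S} with hCd
    set I : Set (Finset ℕ) := {S : Finset ℕ | S ⊆ Finset.Ioo 0 n ∧
            Irreducible ((Polynomial.X : Polynomial ℤ) ^ n + 1 +
              ∑ i ∈ S, (Polynomial.X : Polynomial ℤ) ^ i)} with hId
    set P : Set (Finset ℕ) := {S : Finset ℕ | S ⊆ Ioo 0 n} with hPd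
    have hPe : P = ((Ioo 0 n).powerset : Set (Finset ℕ)) := by
      ext S; rw [hPd, Set.mem_ofPred_eq, mem_coe, mem_powerset]
    have hPfin : P.Finite := by rw [hPe]; exact finite_toSet _
    have hPc : P.ncard = 2 ^ (n - 1) := by
      rw [hPe, Set.ncard_coe_finset, card_powerset, Nat.card_Ioo, Nat.sub_zero]
    have hsub : P ⊆ ((I ∪ A) ∪ B) ∪ C := by
      intro S hS
      by_cases hirr : Irreducible (pol n S)
      · exact Or.inl (Or.inl (Or.inl ⟨hS, hirr⟩))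
      · rcases three_kinds hn hS hirr with h | h | h
        · exact Or.inl (Or.inl (Or.inr ⟨hS, h⟩))
        · exact Or.inl (Or.inr ⟨hS, h⟩)
        · exact Or.inr ⟨hS, h⟩
    have hIs : I ⊆ P := fun S hS => hS.1
    have hAs : A ⊆ P := fun S hS => hS.1
    have hBs : B ⊆ P := fun S hS => hS.1
    have hCs : C ⊆ P := fun S hS => hS.1
    have hfin : (((I ∪ A) ∪ B) ∪ C).Finite :=
      hPfin.subset (Set.union_subset (Set.union_subset (Set.union_subset hIs hAs) hBs) hCs)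
    have h1 : P.ncard ≤ I.ncard + A.ncard + B.ncard + C.ncard :=
      calc P.ncard ≤ (((I ∪ A) ∪ B) ∪ C).ncard := Set.ncard_le_ncard hsub hfin
        _ ≤ ((I ∪ A) ∪ B).ncard + C.ncard := Set.ncard_union_le _ _
        _ ≤ (I ∪ A).ncard + B.ncard + C.ncard := by
            have := Set.ncard_union_le (I ∪ A) B
            omega
        _ ≤ _ := by
            have := Set.ncard_union_le I A
            omega
    rw [hPc] at h1
    have h2 : (2 : ℝ) ^ (n - 1) ≤ I.ncard + A.ncard + B.ncard + C.ncard := by exact_mod_cast h1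
    have h3 : (0 : ℝ) < 2 ^ (n - 1) := by positivity
    rw [← add_div, ← add_div, sub_le_iff_le_add, ← add_div, le_div_iff₀ h3]
    linarith
  · refine Eventually.of_forall fun n => ?_
    have h3 : (0 : ℝ) < 2 ^ (n - 1) := by positivity
    rw [div_le_iff₀ h3, one_mul]
    have h4 : ({S : Finset ℕ | S ⊆ Finset.Ioo 0 n ∧
            Irreducible ((Polynomial.X : Polynomial ℤ) ^ n + 1 +
              ∑ i ∈ S, (Polynomial.X : Polynomial ℤ) ^ i)} : Set (Finset ℕ)) ⊆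
        ((Ioo 0 n).powerset : Set (Finset ℕ)) := by
      intro S hS
      rw [mem_coe, mem_powerset]
      exact hS.1
    have h5 := Set.ncard_le_ncard h4 (finite_toSet _)
    rw [Set.ncard_coe_finset, card_powerset, Nat.card_Ioo, Nat.sub_zero] at h5
    exact_mod_cast h5

end Pool.Agent.Helper79.LC
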