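import Pool.Agent.Helper96.OP.F
import Pool.Agent.Helper36.OP.H3c
import Pool.Agent.Helper7.OP.H4

/-!
The Odlyzko-Poonen conjecture, from the counting theorem `W`.
-/

open Finset Filter

namespace Pool.Agent.Helper79.LC

/-- The Odlyzko-Poonen conjecture, from the counting theorem `W`. -/
theorem final_of_W (W : ∀ ε : ℝ, 0 < ε → ∀ᶠ n : ℕ in atTop,
      ((famT n ((n : ℝ) ^ (0.27 : ℝ))).ncard : ℝ) ≤ Real.exp (ε * n)) :
    Tendsto (fun n : ℕ => (({S : Finset ℕ | S ⊆ Finset.Ioo 0 n ∧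
            Irreducible ((Polynomial.X : Polynomial ℤ) ^ n + 1 +
              ∑ i ∈ S, (Polynomial.X : Polynomial ℤ) ^ i)} : Set (Finset ℕ)).ncard : ℝ)
          / (2 : ℝ) ^ (n - 1)) atTop (nhds 1) :=
  final_of_three cyc_part (noncyc_part W) (big_part W)

end Pool.Agent.Helper79.LC
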