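import Pool.Agent.Helper79.LH.Mul
import Mathlib

/-!
Few polynomials with coefficients `0, 1` have a divisor of degree at least `n / 2` and small Mahler
measure, if there are few integer polynomials of small Mahler measure.
-/

open Finset Filter

namespace Pool.Agent.Helper79.LC

/-- PACKAGE H, second part: factors of degree at least `n / 2` and small Mahler measure. -/
theorem big_part (W : ∀ ε : ℝ, 0 < ε → ∀ᶠ n : ℕ in atTop,
      ((famT n ((n : ℝ) ^ (0.27 : ℝ))).ncard : ℝ) ≤ Real.exp (ε * n)) :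
    Tendsto (fun n : ℕ => (({S : Finset ℕ | S ⊆ Ioo 0 n ∧
      ∃ u : Polynomial ℤ, n ≤ 2 * u.natDegree ∧
        MM u ≤ (n : ℝ) ^ (0.27 : ℝ) ∧ u ∣ pol n S} : Set (Finset ℕ)).ncard : ℝ) /
        (2 : ℝ) ^ (n - 1)) atTop (nhds 0) := by
  classical
  have hl2 : (0.6931471803 : ℝ) < Real.log 2 := Real.log_two_gt_d9
  set δ : ℝ := Real.log 2 / 2 - 1 / 8 with hδ
  have hδ0 : 0 < δ := by rw [hδ]; linarith
  have hlim : Tendsto (fun n : ℕ => 2 * Real.exp (-(δ * n))) atTop (nhds 0) := by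
    have h1 : Tendsto (fun n : ℕ => δ * (n : ℝ)) atTop atTop :=
      tendsto_natCast_atTop_atTop.const_mul_atTop hδ0
    have h2 := (Real.tendsto_exp_neg_atTop_nhds_zero.comp h1).const_mul 2
    simpa using h2
  refine squeeze_zero' (Eventually.of_forall fun n => by positivity) ?_ hlim
  filter_upwards [W (1 / 8) (by norm_num), eventually_ge_atTop 2] with n hW hn
  have hn0 : (0 : ℝ) < n := by positivity
  set T : ℝ := (n : ℝ) ^ (0.27 : ℝ) with hT
  have hT0 : 0 ≤ T := Real.rpow_nonneg hn0.le _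
  have hfin := finite_famT n hT0
  set 𝒢 : Finset (Polynomial ℤ) := hfin.toFinset.filter fun g => n ≤ 2 * g.natDegree with h𝒢
  set D : ℕ := (n + 1) / 2 with hD
  have hG : ∀ g ∈ 𝒢, D ≤ g.natDegree ∧ g.natDegree ≤ n := by
    intro g hg
    obtain ⟨h1, h2⟩ := mem_filter.mp hg
    rw [Set.Finite.mem_toFinset] at h1
    exact ⟨by omega, h1.1⟩
  have hcard : (#𝒢 : ℝ) ≤ Real.exp (1 / 8 * n) := by
    have h1 : #𝒢 ≤ (famT n T).ncard := by
      rw [Set.ncard_eq_toFinset_card _ hfin]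
      exact card_filter_le _ _
    exact (by exact_mod_cast h1 : (#𝒢 : ℝ) ≤ (famT n T).ncard).trans hW
  have hsub : {S : Finset ℕ | S ⊆ Ioo 0 n ∧ ∃ u : Polynomial ℤ, n ≤ 2 * u.natDegree ∧
      MM u ≤ T ∧ u ∣ pol n S} ⊆
      ((Ioo 0 n).powerset.filter fun S => ∃ g ∈ 𝒢, g ∣ pol n S : Finset (Finset ℕ)) := by
    rintro S ⟨h1, u, h2, h3, h4⟩
    rw [mem_coe, mem_filter, mem_powerset]
    refine ⟨h1, u, ?_, h4⟩
    rw [h𝒢, mem_filter, Set.Finite.mem_toFinset]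
    have h6 := Polynomial.natDegree_le_of_dvd h4 (pol_ne_zero (by omega) h1)
    rw [natDegree_pol (by omega) h1] at h6
    exact ⟨⟨h6, h3⟩, h2⟩
  have h1 : ({S : Finset ℕ | S ⊆ Ioo 0 n ∧ ∃ u : Polynomial ℤ, n ≤ 2 * u.natDegree ∧
      MM u ≤ T ∧ u ∣ pol n S} : Set (Finset ℕ)).ncard ≤ #𝒢 * 2 ^ (n - D) := by
    refine (Set.ncard_le_ncard hsub (finite_toSet _)).trans ?_
    rw [Set.ncard_coe_finset]
    exact union_count 𝒢 hG
  have h2 : ((n - D : ℕ) : ℝ) ≤ n / 2 := by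
    have : 2 * (n - D) ≤ n := by omega
    have h3 : (2 : ℝ) * ((n - D : ℕ) : ℝ) ≤ n := by exact_mod_cast this
    linarith
  have h3 : (2 : ℝ) ^ (n - D) ≤ Real.exp (Real.log 2 / 2 * n) := by
    rw [← Real.rpow_natCast, Real.rpow_def_of_pos (by norm_num)]
    apply Real.exp_le_exp.mpr
    calc Real.log 2 * ((n - D : ℕ) : ℝ) ≤ Real.log 2 * (n / 2) := by gcongr
      _ = Real.log 2 / 2 * n := by ring
  have h4 : (2 : ℝ) ^ (n - 1) = Real.exp (Real.log 2 * n) / 2 := by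
    have h5 : (2 : ℝ) ^ n = Real.exp (Real.log 2 * n) := by
      rw [← Real.rpow_natCast, Real.rpow_def_of_pos (by norm_num)]
    have h6 : (2 : ℝ) ^ n = 2 ^ (n - 1) * 2 := by
      rw [← pow_succ]; congr 1; omega
    rw [← h5, h6]; ring
  rw [h4, div_le_iff₀ (by positivity)]
  calc (({S : Finset ℕ | S ⊆ Ioo 0 n ∧ ∃ u : Polynomial ℤ, n ≤ 2 * u.natDegree ∧
      MM u ≤ T ∧ u ∣ pol n S} : Set (Finset ℕ)).ncard : ℝ)
      ≤ ((#𝒢 * 2 ^ (n - D) : ℕ) : ℝ) := by exact_mod_cast h1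
    _ = #𝒢 * 2 ^ (n - D) := by push_cast; ring
    _ ≤ Real.exp (1 / 8 * n) * Real.exp (Real.log 2 / 2 * n) := by gcongr
    _ = 2 * Real.exp (-(δ * n)) * (Real.exp (Real.log 2 * n) / 2) := by
        rw [← Real.exp_add]
        have : 2 * Real.exp (-(δ * n)) * (Real.exp (Real.log 2 * n) / 2) =
            Real.exp (-(δ * n)) * Real.exp (Real.log 2 * n) := by ring
        rw [this, ← Real.exp_add, hδ]
        congr 1; ring

end Pool.Agent.Helper79.LC
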